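import Pool.Agent.TH910.Voj.Count

/-!
Project CZ (helper46), MP_464c42_nt: forms with `m`-full values. Statements of the modules.
-/

set_option autoImplicit false

namespace Pool.Agent.L0h46.CZ

open MvPolynomial Pool.Agent.TH910.Voj

/-- `m`-full outside `S` -/
def Full (m : ℕ) (S : Finset ℕ) (N : ℤ) : Prop :=
  ∀ p : ℕ, p.Prime → p ∉ S → (p : ℤ) ∣ N → (p : ℤ) ^ m ∣ N

/-- LIA: the number of integers which are `m`-full outside `S`.
Proof. `|N| = M ^ 2 * s` with `s` squarefree (`Nat.sq_mul_squarefree`). Every prime of `s` outside `S`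
divides `M` (as `p ^ 2 ∣ N`), so that `s ∣ M * P`, `P` the product of the primes in `S`; hence
`s ≤ M * P`. If `M ^ 3 ≤ X` there are at most `P M` numbers `s` for `M`, together at most
`P X ^ (2 / 3)` pairs; if `M ^ 3 > X` there are at most `X / M ^ 2`, together at most `3 X ^ (2 / 3)`. -/
def S_LIA : Prop := ∀ (m : ℕ) (S : Finset ℕ), 2 ≤ m → ∃ K : ℝ, 0 < K ∧ ∀ X : ℕ, 1 ≤ X →
  ∀ E : Finset ℤ, (∀ N ∈ E, N ≠ 0 ∧ |N| ≤ X ∧ Full m S N) →
    (E.card : ℝ) ≤ K * (X : ℝ) ^ ((2 : ℝ) / 3)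

/-- LIB: linear forms. Proof. `F = ∑ a_i x_i` with some `a_j ≠ 0`; a value is at most `K' B`; the
coordinate `x_j` is determined by the value and the other coordinates: at most
`K (K' B) ^ (2 / 3) (2 B + 1) ^ n` vectors. -/
def S_LIB : Prop := S_LIA → ∀ (n : ℕ) (F : MvPolynomial (Fin (n + 1)) ℤ), F.IsHomogeneous 1 →
  F ≠ 0 → ∀ (m : ℕ) (S : Finset ℕ), 2 ≤ m →
    Sparse (n + 1) (fun _ x => eval x F ≠ 0 ∧ Full m S (eval x F))

end Pool.Agent.L0h46.CZ
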