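import Pool.Agent.N445.DF.A15
import Pool.Agent.L0h46.CV.SPL
import Pool.Agent.L0h46.CZ.Stm

/-!
Project CZ (helper46), MP_464c42_nt: forms with `m`-full values, the abstract argument.
-/

set_option autoImplicit false

namespace Pool.Agent.L0h46.CZ

open MvPolynomial Pool.Agent.TH910.Voj Pool.Agent.H813R3.Voj Pool.Agent.N445.VW

/-- linear forms -/
def S_LIN : Prop := ∀ (n : ℕ) (F : MvPolynomial (Fin (n + 1)) ℤ), F.IsHomogeneous 1 →
  F ≠ 0 → ∀ (m : ℕ) (S : Finset ℕ), 2 ≤ m →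
    Sparse (n + 1) (fun _ x => eval x F ≠ 0 ∧ Full m S (eval x F))

theorem exists_gam (a : ℝ) (k m : ℕ) (ha : 1 < a) (h : (k : ℝ) < (2 * m + 1) * a) :
    ∃ γ : ℝ, 0 < γ ∧ γ ≤ 1 / 8 ∧ γ ≤ a - 1 ∧ (k : ℝ) + γ < (2 * m + 1) * (a - γ) := by
  have hm0 : (0 : ℝ) ≤ m := Nat.cast_nonneg m
  set D : ℝ := ((2 * m + 1) * a - k) / (2 * (2 * m + 2)) with hD
  have hD0 : 0 < D := div_pos (by linarith) (by positivity)
  have hDe : D * (2 * (2 * m + 2)) = (2 * m + 1) * a - k := by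
    rw [hD]; field_simp
  refine ⟨min (min (1 / 8) (a - 1)) D, lt_min (lt_min (by norm_num) (by linarith)) hD0,
    (min_le_left _ _).trans (min_le_left _ _), (min_le_left _ _).trans (min_le_right _ _), ?_⟩
  set g := min (min (1 / 8) (a - 1)) D with hg
  have hgD : g ≤ D := min_le_right _ _
  have hg0 : 0 < g := lt_min (lt_min (by norm_num) (by linarith)) hD0
  have h1 : g * (2 * m + 2) ≤ D * (2 * m + 2) := mul_le_mul_of_nonneg_right hgD (by positivity)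
  have h2 : 0 < D * (2 * m + 2) := by positivity
  nlinarith

theorem full_abs {n : ℕ} (F : MvPolynomial (Fin (n + 1)) ℤ) {k : ℕ}
    (hk : F.IsHomogeneous k) (hk2 : 2 ≤ k) (hirr : Irreducible (toQ F)) (α : ℝ) (hα : 1 < α)
    (v : Fin (n + 1) → ℤ) (hFv : eval v F ≠ 0) (K0 : ℤ) (hK0 : K0 ≠ 0) (ρ : ℝ → ℝ)
    (hρ : ∀ δ, 0 < δ → 0 < ρ δ) (Q : (Fin (n + 1) → ℤ) → Prop)
    (H1 : ∀ ε δ : ℝ, 0 < ε → ε ≤ 1 / 16 → 0 < δ → δ ≤ 1 → Sparse (n + 1) (fun B x => Q x ∧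
      ∃ M : ℕ, (B : ℝ) ^ ε < M ∧ ((M : ℤ) ^ 2 ∣ eval x F) ∧
      ∀ p : ℕ, p.Prime → p ∣ M → (p : ℝ) ≤ (B : ℝ) ^ (α - δ) ∧
        ¬ (p : ℤ) ∣ K0 * eval x (dder v F)))
    (H2 : ∀ e : ℕ, 2 ≤ e → ∀ δ : ℝ, 0 < δ → δ ≤ 1 → Sparse (n + 1) (fun B x => Q x ∧
      ∃ (s : ℕ) (σ w : ℤ), Squarefree s ∧ (s : ℝ) ≤ (B : ℝ) ^ (α - δ) ∧
      (σ.natAbs : ℝ) ≤ (B : ℝ) ^ (ρ δ) ∧ eval x F = σ * s * w ^ e ∧ eval x F ≠ 0 ∧
      ∀ p : ℕ, p.Prime → p ∣ s → ¬ (p : ℤ) ∣ K0 * eval x (dder v F)))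
    (m : ℕ) (hm : 2 ≤ m) (hkm : (k : ℝ) < (2 * m + 1) * α) (S : Finset ℕ) :
    Sparse (n + 1) (fun B x => Q x ∧ eval x F ≠ 0 ∧ Full m S (eval x F)) := by
  classical
  have hk1 : 1 ≤ k := by omega
  have hF0 : F ≠ 0 := by rintro rfl; simp at hFv
  have hG := not_dvd_dder v F hk hk1 hFv
  obtain ⟨c, hc1, hc⟩ := exists_eval_bound F (hk.totalDegree_le)
  obtain ⟨γ, hγ0, hγ8, hγ1, hγm⟩ := exists_gam α k m hα hkm
  have hργ := hρ γ hγ0
  set ε : ℝ := min (1 / 16) (ρ γ / 8) with hε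
  have hε0 : 0 < ε := lt_min (by norm_num) (by positivity)
  have hε2 : ε ≤ 1 / 16 := min_le_left _ _
  have hε4 : ε ≤ ρ γ / 8 := min_le_right _ _
  set β := α - γ with hβ
  have hβ1 : 1 ≤ β := by rw [hβ]; linarith
  obtain ⟨η1, hη1, S1⟩ := sparse_sing F hk hk1 hirr hε0 (by linarith)
  have S2 := sparse_gcd F (dder v F) hk hirr hG (η := η1 / 2) (by positivity)
  have S3 := H1 ε γ hε0 hε2 hγ0 (by linarith)
  have S5 : Sparse (n + 1) (fun B x => ∃ j : Fin (2 * m + 1), 2 ≤ (j : ℕ) ∧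
      (Q x ∧ ∃ (s : ℕ) (σ w : ℤ), Squarefree s ∧ (s : ℝ) ≤ (B : ℝ) ^ (α - γ) ∧
      (σ.natAbs : ℝ) ≤ (B : ℝ) ^ (ρ γ) ∧ eval x F = σ * s * w ^ (j : ℕ) ∧ eval x F ≠ 0 ∧
      ∀ p : ℕ, p.Prime → p ∣ s → ¬ (p : ℤ) ∣ K0 * eval x (dder v F))) := by
    refine Sparse.exists_fin fun j => ?_
    by_cases hj : 2 ≤ (j : ℕ)
    · exact (H2 j hj γ hγ0 (by linarith)).mono fun B x _ _ h => h.2
    · exact (Sparse.false (n + 1)).mono fun B x _ _ h => hj h.1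
  have hev : ∀ (t : ℝ), 0 < t → ∀ C : ℝ, ∃ B₀ : ℕ, ∀ B : ℕ, B₀ ≤ B → C ≤ (B : ℝ) ^ t := by
    intro t ht C
    have h1 : Filter.Tendsto (fun B : ℕ => (B : ℝ) ^ t) Filter.atTop Filter.atTop :=
      (tendsto_rpow_atTop ht).comp tendsto_natCast_atTop_atTop
    exact Filter.eventually_atTop.mp (h1.eventually_ge_atTop C)
  set P : ℕ := ∏ p ∈ S.filter Nat.Prime, p with hP
  have hP0 : P ≠ 0 := Finset.prod_ne_zero_iff.2 fun p hp => (Finset.mem_filter.1 hp).2.ne_zero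
  obtain ⟨B1, hB1⟩ := hev (η1 / 2) (by positivity) (K0.natAbs : ℝ)
  obtain ⟨B2, hB2⟩ := hev γ hγ0 (c : ℝ)
  obtain ⟨B3, hB3⟩ := hev ε hε0 (P : ℝ)
  refine (((S1).or (S2.or (S3.or S5))).of_eventually (B1 + B2 + B3 + P + 2) ?_)
  rintro B x hBB hB hx ⟨hQ, hne, hfull⟩
  by_contra hcon
  rw [not_or, not_or, not_or] at hcon
  obtain ⟨n1, n2, n3, n5⟩ := hcon
  have hBr : (1 : ℝ) ≤ B := by exact_mod_cast hB
  have hBr1 : (1 : ℝ) < B := by
    have : 1 < B := by omega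
    exact_mod_cast this
  have hBpos : (0 : ℝ) < B := by linarith
  have hKB := hB1 B (by omega)
  have hcB := hB2 B (by omega)
  have hPB := hB3 B (by omega)
  set N := (eval x F).natAbs with hN
  have hN0 : N ≠ 0 := Int.natAbs_ne_zero.2 hne
  have hNpos : 0 < N := Nat.pos_of_ne_zero hN0
  have hNup : (N : ℝ) ≤ (B : ℝ) ^ ((k : ℝ) + γ) := by
    have h1 : (N : ℝ) ≤ c * (B : ℝ) ^ k := by exact_mod_cast hc B hB x hx
    refine h1.trans ?_
    rw [add_comm, Real.rpow_add hBpos, Real.rpow_natCast]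
    exact mul_le_mul_of_nonneg_right hcB (by positivity)
  have hdvdN : ∀ d : ℕ, d ∣ N → (d : ℤ) ∣ eval x F := fun d hd => Int.natCast_dvd.2 hd
  have hBε : 1 ≤ (B : ℝ) ^ ε := Real.one_le_rpow hBr hε0.le
  -- the singular divisors are small
  have hsing : ∀ t : ℕ, t ∣ N → (∀ p : ℕ, p.Prime → p ∣ t →
      (p : ℤ) ∣ K0 * eval x (dder v F)) → (t : ℝ) ≤ (B : ℝ) ^ ε := by
    intro t htN htp
    by_contra h
    push Not at h
    refine n1 ⟨hne, t, hdvdN t htN, h, ?_⟩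
    have hg0 : Int.gcd (eval x F) (eval x (dder v F)) ≠ 0 := fun h =>
      hne (Int.gcd_eq_zero_iff.mp h).1
    have h1 : rd t ≤ K0.natAbs * rd (Int.gcd (eval x F) (eval x (dder v F))) := by
      refine rd_le_mul t _ _ (Int.natAbs_ne_zero.2 hK0) hg0 ?_
      intro p hp hpM
      have hpZ : Prime (p : ℤ) := Nat.prime_iff_prime_int.1 hp
      rcases hpZ.dvd_or_dvd (htp p hp hpM) with h2 | h2
      · left; exact Int.natCast_dvd.1 h2
      · right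
        have h3 : (p : ℤ) ∣ eval x F := hdvdN p (hpM.trans htN)
        exact Nat.dvd_gcd (Int.natCast_dvd.1 h3) (Int.natCast_dvd.1 h2)
    have h2 : (rd (Int.gcd (eval x F) (eval x (dder v F))) : ℝ) ≤ (B : ℝ) ^ (η1 / 2) := by
      by_contra h3
      push Not at h3
      exact n2 ⟨hne, h3⟩
    calc (rd t : ℝ) ≤ K0.natAbs * rd (Int.gcd (eval x F) (eval x (dder v F))) := by
          exact_mod_cast h1
      _ ≤ (B : ℝ) ^ (η1 / 2) * (B : ℝ) ^ (η1 / 2) :=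
          mul_le_mul hKB h2 (Nat.cast_nonneg _) (by positivity)
      _ = (B : ℝ) ^ η1 := by rw [← Real.rpow_add hBpos]; congr 1; ring
  -- the large primes
  have hfullN : ∀ p : ℕ, p.Prime → p ∉ S → p ∣ N → p ^ m ∣ N := by
    intro p hp hpS hpN
    have h1 := hfull p hp hpS (hdvdN p hpN)
    have h2 : ((p ^ m : ℕ) : ℤ) ∣ eval x F := by push_cast; exact h1
    exact Int.natCast_dvd.1 h2
  have hZ1 : 1 < (B : ℝ) ^ β := Real.one_lt_rpow hBr1 (by linarith)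
  obtain ⟨s, A, L, hNe, hsS, hA, hAp, hL⟩ :=
    Pool.Agent.L0h46.CV.spl m S ((B : ℝ) ^ β) N hm hZ1 hNpos hfullN
  have hpow : ∀ t : ℕ, ((B : ℝ) ^ β) ^ t ≤ (N : ℝ) → t ≤ 2 * m := by
    intro t ht
    by_contra hcon
    have h1 : (2 * (m : ℝ) + 1) ≤ t := by
      have : 2 * m + 1 ≤ t := by omega
      exact_mod_cast this
    have h2 : (B : ℝ) ^ ((k : ℝ) + γ) < ((B : ℝ) ^ β) ^ t := by
      rw [← Real.rpow_natCast ((B : ℝ) ^ β), ← Real.rpow_mul hBpos.le]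
      refine Real.rpow_lt_rpow_of_exponent_lt hBr1 ?_
      have : (2 * (m : ℝ) + 1) * β ≤ t * β := mul_le_mul_of_nonneg_right h1 (by linarith)
      linarith
    linarith
  obtain ⟨t, y, ht, hLy, ht2⟩ : ∃ t y : ℕ, t.Prime ∧ L = y ^ t ∧ t ≤ 2 * m := by
    rcases hL with ⟨t, y, ht, hLy, ht2⟩ | hbig
    · refine ⟨t, y, ht, hLy, ?_⟩
      rcases ht2 with h | h
      · omega
      · exact hpow t h
    · have := hpow _ hbig
      omega
  set R := s * A with hR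
  have hNR : N = R * y ^ t := by rw [hNe, hLy]
  have hR0 : R ≠ 0 := by
    intro h
    rw [h, zero_mul] at hNR
    exact hN0 hNR
  have hs0' : s ≠ 0 := by intro h; rw [hR, h, zero_mul] at hR0; exact hR0 rfl
  have hRN : R ∣ N := ⟨y ^ t, hNR⟩
  have hle_of_S : ∀ p ∈ S, p.Prime → (p : ℝ) ≤ (B : ℝ) ^ β := by
    intro p hp hpp
    have h1 : p ∣ P := Finset.dvd_prod_of_mem _ (Finset.mem_filter.2 ⟨hp, hpp⟩)
    have h2 : p ≤ P := Nat.le_of_dvd (Nat.pos_of_ne_zero hP0) h1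
    have h3 : (p : ℝ) ≤ B := by
      have : p ≤ B := by omega
      exact_mod_cast this
    refine h3.trans ?_
    calc (B : ℝ) = (B : ℝ) ^ (1 : ℝ) := (Real.rpow_one _).symm
      _ ≤ _ := Real.rpow_le_rpow_of_exponent_le hBr hβ1
  have hRp : ∀ p : ℕ, p.Prime → p ∣ R → (p : ℝ) ≤ (B : ℝ) ^ β := by
    intro p hp hpR
    rcases (hp.dvd_mul).1 hpR with h | h
    · exact hle_of_S p (hsS p hp h) hp
    · exact (hAp p hp h).2
  obtain ⟨Rs, Rn, hRR, hRsp, hRnp⟩ := exists_split R hR0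
    (fun p => (p : ℤ) ∣ K0 * eval x (dder v F))
  have bRs : (Rs : ℝ) ≤ (B : ℝ) ^ ε := hsing Rs ((Dvd.intro _ hRR).trans hRN) hRsp
  have hRn0 : Rn ≠ 0 := by rintro rfl; rw [mul_zero] at hRR; exact hR0 hRR.symm
  obtain ⟨s0, M, hMR, hsq⟩ := Nat.sq_mul_squarefree Rn
  have hM0 : M ≠ 0 := by
    rintro rfl
    simp at hMR
    exact hRn0 hMR.symm
  have hMRn : M ^ 2 ∣ Rn := ⟨s0, hMR.symm⟩
  have hRnR : Rn ∣ R := Dvd.intro_left _ hRR
  have hMR1 : M ∣ R := ((dvd_pow_self M two_ne_zero).trans hMRn).trans hRnR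
  have bM : (M : ℝ) ≤ (B : ℝ) ^ ε := by
    by_contra h
    push Not at h
    refine n3 ⟨hQ, M, h, ?_, ?_⟩
    · have h3 : M ^ 2 ∣ N := (hMRn.trans hRnR).trans hRN
      exact_mod_cast hdvdN _ h3
    · intro p hp hpM
      exact ⟨hRp p hp (hpM.trans hMR1),
        hRnp p hp ((hpM.trans (dvd_pow_self M two_ne_zero)).trans hMRn)⟩
  have hs0dvd : ∀ p : ℕ, p.Prime → p ∣ s0 → p ∣ M * P := by
    intro p hp hps
    by_cases hpS : p ∈ S
    · exact (Finset.dvd_prod_of_mem _ (Finset.mem_filter.2 ⟨hpS, hp⟩)).mul_left M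
    · have hpRn : p ∣ Rn := hps.trans ⟨M ^ 2, by rw [← hMR]; ring⟩
      have hpR : p ∣ s * A := hpRn.trans hRnR
      have hpA : p ∣ A := by
        rcases (hp.dvd_mul).1 hpR with h | h
        · exact absurd (hsS p hp h) hpS
        · exact h
      have h1 : p ^ 2 ∣ R :=
        ((pow_dvd_pow p hm).trans (hA.2 p hp hpA)).mul_left s
      have hcop : (p ^ 2).Coprime Rs := by
        refine Nat.Coprime.pow_left 2 ((Nat.Prime.coprime_iff_not_dvd hp).2 fun h => ?_)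
        exact hRnp p hp hpRn (hRsp p hp h)
      have h2 : p ^ 2 ∣ Rn := by
        rw [← hRR] at h1
        exact hcop.dvd_of_dvd_mul_left h1
      by_contra hpMP
      have hpM : ¬ p ∣ M := fun h => hpMP (h.mul_right P)
      have hcop2 : (p ^ 2).Coprime (M ^ 2) :=
        Nat.Coprime.pow 2 2 ((Nat.Prime.coprime_iff_not_dvd hp).2 hpM)
      have h3 : p ^ 2 ∣ s0 := by
        rw [← hMR] at h2
        exact hcop2.dvd_of_dvd_mul_left h2
      have h4 := hsq p (by rw [← pow_two]; exact h3)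
      exact hp.one_lt.ne' (Nat.isUnit_iff.1 h4)
  have hs0le : s0 ≤ M * P := by
    have h1 : s0 = ∏ p ∈ s0.primeFactors, p := (Nat.prod_primeFactors_of_squarefree hsq).symm
    have h2 : ∏ p ∈ (M * P).primeFactors, p ∣ M * P := Nat.prod_primeFactors_dvd _
    have h3 : s0.primeFactors ⊆ (M * P).primeFactors := by
      intro p hp
      rw [Nat.mem_primeFactors] at hp ⊢
      exact ⟨hp.1, hs0dvd p hp.1 hp.2.1, mul_ne_zero hM0 hP0⟩
    have h4 : s0 ∣ M * P := by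
      rw [h1]
      exact (Finset.prod_dvd_prod_of_subset _ _ _ h3).trans h2
    exact Nat.le_of_dvd (Nat.pos_of_ne_zero (mul_ne_zero hM0 hP0)) h4
  have bs0 : (s0 : ℝ) ≤ (B : ℝ) ^ ε * (B : ℝ) ^ ε := by
    calc (s0 : ℝ) ≤ (M : ℝ) * P := by exact_mod_cast hs0le
      _ ≤ _ := mul_le_mul bM hPB (Nat.cast_nonneg _) (by positivity)
  have bR : (R : ℝ) ≤ (B : ℝ) ^ (ρ γ) := by
    have h1 : (R : ℝ) = Rs * ((M : ℝ) ^ 2 * s0) := by
      rw [← hRR, ← hMR]; push_cast; ring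
    rw [h1]
    calc (Rs : ℝ) * ((M : ℝ) ^ 2 * s0) ≤
          (B : ℝ) ^ ε * (((B : ℝ) ^ ε) ^ 2 * ((B : ℝ) ^ ε * (B : ℝ) ^ ε)) := by
          refine mul_le_mul bRs ?_ (by positivity) (by positivity)
          exact mul_le_mul (pow_le_pow_left₀ (Nat.cast_nonneg _) bM 2) bs0 (Nat.cast_nonneg _)
            (by positivity)
      _ = ((B : ℝ) ^ ε) ^ 5 := by ring
      _ = (B : ℝ) ^ (5 * ε) := by
          rw [← Real.rpow_natCast, ← Real.rpow_mul hBpos.le]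
          congr 1
          push_cast
          ring
      _ ≤ _ := Real.rpow_le_rpow_of_exponent_le hBr (by linarith)
  have hfin : ∀ σ : ℤ, σ.natAbs = R → eval x F = σ * (y : ℤ) ^ t → False := by
    intro σ hσ he
    refine n5 ⟨⟨t, by omega⟩, ht.two_le, hQ, 1, σ, (y : ℤ), squarefree_one, ?_, ?_, ?_, hne, ?_⟩
    · rw [Nat.cast_one]
      exact Real.one_le_rpow hBr (by rw [← hβ]; linarith)
    · rw [hσ]; exact bR
    · rw [he]; push_cast; ring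
    · intro p hp hp1
      exact absurd (Nat.dvd_one.1 hp1) hp.one_lt.ne'
  rcases Int.natAbs_eq (eval x F) with h | h
  · refine hfin (R : ℤ) (Int.natAbs_natCast R) ?_
    rw [h, ← hN, hNR]; push_cast; ring
  · refine hfin (-(R : ℤ)) (by rw [Int.natAbs_neg, Int.natAbs_natCast]) ?_
    rw [h, ← hN, hNR]; push_cast; ring

end Pool.Agent.L0h46.CZ
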