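import Pool.Agent.N445.VW.Main3
import Pool.Agent.L0h46.CZ.Abs

/-!
Project CZ (helper46), MP_464c42_nt: general forms and norm forms.
-/

set_option autoImplicit false

namespace Pool.Agent.L0h46.CZ

open MvPolynomial Pool.Agent.TH910.Voj Pool.Agent.H813R3.Voj Pool.Agent.N445.VW
  Pool.Agent.N445.DF NumberField

/-- general forms -/
theorem full_gen {n : ℕ} (hn : 2 ≤ n) (F : MvPolynomial (Fin (n + 1)) ℤ) {k : ℕ}
    (hk : F.IsHomogeneous k) (hk2 : 2 ≤ k) (hirr : Irreducible (toQ F))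
    (m : ℕ) (hm : 2 ≤ m) (hkm : (k : ℝ) < (2 * m + 1) * (1 + 1 / (n : ℝ))) (S : Finset ℕ) :
    Sparse (n + 1) (fun B x => (∃ c : Fin (n + 1) → ℤ, ∑ i, c i * x i = 1) ∧ eval x F ≠ 0 ∧
      Full m S (eval x F)) := by
  have hk1 : 1 ≤ k := by omega
  obtain ⟨a, i₀, hFa, ha⟩ := exists_direction F hk hirr
  have hn0 : (0 : ℝ) < n := by exact_mod_cast (by omega : 0 < n)
  have h1n : 0 < 1 / (n : ℝ) := by positivity
  refine full_abs F hk hk2 hirr (1 + 1 / (n : ℝ)) (by linarith) a hFa (a i₀ * eval a F)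
    (mul_ne_zero ha hFa) (fun δ => δ / 64) (fun δ hδ => by positivity)
    (fun x => ∃ c : Fin (n + 1) → ℤ, ∑ i, c i * x i = 1) ?_ ?_ m hm hkm S
  · intro ε δ hε hε1 hδ hδ1
    have S3 := sparse_square F hk hk1 a i₀ hFa ha hε (show (0 : ℝ) < 1 / 8 by norm_num)
      (by norm_num)
    have S4 := sparse_planes hn F hk hk1 hirr δ hδ
    refine (S3.or S4).mono ?_
    rintro B x hB - ⟨hprim, M, hM1, hM2, hM3⟩
    have hBr : (1 : ℝ) ≤ B := by exact_mod_cast hB
    have hBpos : (0 : ℝ) < B := by linarith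
    by_cases hbig : ∃ p : ℕ, p.Prime ∧ p ∣ M ∧ (B : ℝ) ^ ((3 : ℝ) / 4) < p
    · obtain ⟨p, hp, hpM, hpB⟩ := hbig
      right
      refine ⟨hprim, p, hp, hpB, (hM3 p hp hpM).1, ?_⟩
      refine dvd_trans ?_ hM2
      exact pow_dvd_pow_of_dvd (Int.natCast_dvd_natCast.2 hpM) 2
    · left
      push Not at hbig
      obtain ⟨d, hd1, hd2, hd3⟩ := exists_divisor M _ ((B : ℝ) ^ ((3 : ℝ) / 4))
        (Real.one_le_rpow hBr hε.le) hM1 (fun p hp hpM => hbig p hp hpM)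
      refine ⟨d, hd2, ?_, ?_, fun p hp hpd => (hM3 p hp (hpd.trans hd1)).2⟩
      · refine hd3.trans ?_
        rw [← Real.rpow_add hBpos]
        exact Real.rpow_le_rpow_of_exponent_le hBr (by linarith)
      · exact dvd_trans (pow_dvd_pow_of_dvd (Int.natCast_dvd_natCast.2 hd1) 2) hM2
  · intro e he δ hδ hδ1
    refine (sparse_mul hn F hk hk2 hirr e he δ hδ).mono ?_
    rintro B x - - ⟨hprim, s, σ, w, h1, h2, h3, h4, h5, -⟩
    exact ⟨hprim, h5, s, σ, w, h1, h2, h3, h4⟩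

/-- norm forms -/
theorem full_norm {E : Type} [Field E] [NumberField E] {n : ℕ}
    (F : MvPolynomial (Fin (n + 1)) ℤ) {k : ℕ}
    (hk : F.IsHomogeneous k) (hk2 : 2 ≤ k) (hirr : Irreducible (toQ F))
    (α : Fin (n + 1) → 𝓞 E) (d c : ℤ) (hF : NF F α d c) (J : Finset (Fin (n + 1)))
    (hJ : ∀ i, (α i : E) ∈ Submodule.span ℚ ((fun j => (α j : E)) '' (J : Set (Fin (n + 1)))))
    (hind : ∀ u : Fin (n + 1) → ℤ, (∀ i, i ∉ J → u i = 0) → u ≠ 0 → Lf α u ≠ 0)
    (hm2 : 2 ≤ J.card) (m : ℕ) (hm : 2 ≤ m) (hkm : (k : ℝ) < (2 * m + 1) * (J.card : ℝ))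
    (S : Finset ℕ) :
    Sparse (n + 1) (fun _ x => eval x F ≠ 0 ∧ Full m S (eval x F)) := by
  classical
  obtain ⟨j0, hj0⟩ : J.Nonempty := by
    rw [← Finset.card_pos]; omega
  set a : Fin (n + 1) → ℤ := Pi.single j0 1 with ha
  have haJ : ∀ i, i ∉ J → a i = 0 := by
    intro i hi
    rw [ha, Pi.single_eq_of_ne]
    rintro rfl
    exact hi hj0
  have ha0 : a ≠ 0 := by
    intro h
    have := congrFun h j0
    rw [ha, Pi.single_eq_same, Pi.zero_apply] at this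
    exact one_ne_zero this
  have hFa : eval a F ≠ 0 := eval_ne_of_Lf F α d c hF a (hind a haJ ha0)
  have hm1 : (2 : ℝ) ≤ J.card := by exact_mod_cast hm2
  refine (full_abs F hk hk2 hirr (J.card : ℝ) (by linarith) a hFa (d * c)
    (mul_ne_zero hF.hd hF.hc) (fun δ => δ / (32 * J.card)) (fun δ hδ => by positivity)
    (fun _ => True) ?_ ?_ m hm hkm S).mono fun B x _ _ h => ⟨trivial, h⟩
  · intro ε δ hε hε1 hδ hδ1
    set ε' := min ε (δ / 2) with hε'
    have hε'0 : 0 < ε' := lt_min hε (by positivity)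
    refine (sparse_p F hk α d c hF J hind (by omega) a haJ ε' (δ / 2) hε'0 (by positivity)
      (by linarith)).mono ?_
    rintro B x hB - ⟨-, M, hM1, hM2, hM3⟩
    have hBr : (1 : ℝ) ≤ B := by exact_mod_cast hB
    have hBpos : (0 : ℝ) < B := by linarith
    have hM1' : (B : ℝ) ^ ε' < M :=
      lt_of_le_of_lt (Real.rpow_le_rpow_of_exponent_le hBr (min_le_left _ _)) hM1
    obtain ⟨t, ht1, ht2, ht3⟩ := exists_divisor M _ ((B : ℝ) ^ ((J.card : ℝ) - δ))
      (Real.one_le_rpow hBr hε'0.le) hM1' (fun p hp hpM => (hM3 p hp hpM).1)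
    refine ⟨t, ht2, ?_, ?_, fun p hp hpd => (hM3 p hp (hpd.trans ht1)).2⟩
    · refine ht3.trans ?_
      rw [← Real.rpow_add hBpos]
      refine Real.rpow_le_rpow_of_exponent_le hBr ?_
      have : ε' ≤ δ / 2 := min_le_right _ _
      linarith
    · exact dvd_trans (pow_dvd_pow_of_dvd (Int.natCast_dvd_natCast.2 ht1) 2) hM2
  · intro e he δ hδ hδ1
    refine (sparse_s F hk hk2 hirr α d c hF J hJ hind hm2 a haJ e he δ hδ hδ1).mono ?_
    rintro B x - - ⟨-, s, σ, w, -, h2⟩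
    exact ⟨s, σ, w, h2⟩

/-- a component -/
theorem full_comp (hlin : S_LIN) {n : ℕ} (F : MvPolynomial (Fin (n + 1)) ℤ) {k : ℕ}
    (hk : F.IsHomogeneous k) (hirr : Irreducible (toQ F)) (m : ℕ) (hm : 2 ≤ m)
    (hkm : (2 ≤ n ∧ n * k < (2 * m + 1) * (n + 1)) ∨
      ∃ r : ℕ, IsNormForm F r ∧ k < (2 * m + 1) * r) (S : Finset ℕ) :
    Sparse (n + 1) (fun _ x => (∃ c : Fin (n + 1) → ℤ, ∑ i, c i * x i = 1) ∧ eval x F ≠ 0 ∧
      Full m S (eval x F)) := by
  have hk1 := one_le_of_irr F hk hirr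
  have hF0 : F ≠ 0 := by
    intro h0
    exact hirr.ne_zero (by rw [h0, map_zero])
  rcases Nat.eq_or_lt_of_le hk1 with h | h
  · subst h
    exact (hlin n F hk hF0 m S hm).mono fun B x _ _ h => h.2
  · rcases hkm with ⟨hn, hkm⟩ | ⟨r, hr, hkm⟩
    · refine full_gen hn F hk h hirr m hm ?_ S
      have hn0 : (0 : ℝ) < n := by exact_mod_cast (by omega : 0 < n)
      have h1 : (n : ℝ) * k < (2 * m + 1) * (n + 1) := by exact_mod_cast hkm
      have h2 : (2 * (m : ℝ) + 1) * (1 + 1 / (n : ℝ)) = (2 * m + 1) * (n + 1) / n := by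
        field_simp
      rw [h2, lt_div_iff₀ hn0]
      linarith
    · obtain ⟨E, hE1, hE2, α, d, c, J, hNF, hJm, hJ, hind⟩ := NF_of_isNormForm F hF0 r hr
      have hm2 := two_le_rank F hk h hirr α d c hNF J hJ hind
      refine (full_norm F hk h hirr α d c hNF J hJ hind hm2 m hm ?_ S).mono
        fun B x _ _ h => h.2
      rw [hJm]
      exact_mod_cast hkm

end Pool.Agent.L0h46.CZ
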