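import Pool.Agent.N445.DF.A16
import Pool.Agent.L0h46.CZ.Inst

/-!
Project CZ (helper46), MP_464c42_nt: C-pairs on projective spaces.
-/

set_option autoImplicit false

namespace Pool.Agent.L0h46.CZ

open MvPolynomial Pool.Agent.TH910.Voj Pool.Agent.H813R3.Voj Pool.Agent.N445.VW
  Pool.Agent.N445.DF NumberField

/-- the Campana points -/
def Cam {n q : ℕ} (F : Fin q → MvPolynomial (Fin (n + 1)) ℤ) (m : Fin q → ℕ∞) (S : Finset ℕ) :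
    Set (Fin (n + 1) → ℤ) :=
  {x | (∃ c : Fin (n + 1) → ℤ, ∑ i, c i * x i = 1) ∧ ∀ i, eval x (F i) ≠ 0 ∧
    ∀ p : ℕ, p.Prime → p ∉ S → (p : ℤ) ∣ eval x (F i) →
      m i ≤ emultiplicity (p : ℤ) (eval x (F i))}

/-- a component of small degree -/
def Sm {n : ℕ} (F : MvPolynomial (Fin (n + 1)) ℤ) (k : ℕ) (m : ℕ∞) : Prop :=
  ∃ e : ℕ, 2 ≤ e ∧ (e : ℕ∞) ≤ m ∧ ((2 ≤ n ∧ n * k < (2 * e + 1) * (n + 1)) ∨
    ∃ r : ℕ, IsNormForm F r ∧ k < (2 * e + 1) * r)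

theorem cam_full {n q : ℕ} (F : Fin q → MvPolynomial (Fin (n + 1)) ℤ) (m : Fin q → ℕ∞)
    (S : Finset ℕ) (i : Fin q) (e : ℕ) (he : (e : ℕ∞) ≤ m i) (x : Fin (n + 1) → ℤ)
    (hx : x ∈ Cam F m S) : (∃ c : Fin (n + 1) → ℤ, ∑ i, c i * x i = 1) ∧ eval x (F i) ≠ 0 ∧
      Full e S (eval x (F i)) := by
  obtain ⟨h1, h2⟩ := hx
  refine ⟨h1, (h2 i).1, fun p hp hpS hpd => ?_⟩
  exact pow_dvd_of_le_emultiplicity (he.trans ((h2 i).2 p hp hpS hpd))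

instance countable_mv (n : ℕ) : Countable (MvPolynomial (Fin n) ℤ) := by
  rw [← Cardinal.mk_le_aleph0_iff]
  refine (MvPolynomial.cardinalMk_le_max).trans ?_
  simp

theorem sparse_real {N : ℕ} (hN : 0 < N) (P : (Fin N → ℤ) → Prop)
    (h : Sparse N (fun _ x => P x)) :
    ∃ c C : ℝ, 0 < c ∧ ∀ B : ℝ, 1 ≤ B → {x : Fin N → ℤ | P x ∧ ∀ i, |(x i : ℝ)| ≤ B}.Finite ∧
      ({x : Fin N → ℤ | P x ∧ ∀ i, |(x i : ℝ)| ≤ B}.ncard : ℝ) ≤ C * B ^ ((N : ℝ) - c) := by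
  obtain ⟨c, hc, C, hC, h⟩ := h
  refine ⟨min c 1, C, lt_min hc one_pos, fun B hB => ?_⟩
  set b := ⌊B⌋₊ with hb
  have hb1 : 1 ≤ b := Nat.le_floor (by exact_mod_cast hB)
  have hbB : (b : ℝ) ≤ B := Nat.floor_le (by linarith)
  have heq : {x : Fin N → ℤ | P x ∧ ∀ i, |(x i : ℝ)| ≤ B} = {x | x ∈ box N b ∧ P x} := by
    ext x
    rw [Set.mem_setOf_eq, Set.mem_setOf_eq, mem_box, and_comm]
    refine and_congr_left fun _ => forall_congr' fun i => ?_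
    rw [Int.abs_eq_natAbs]
    have h1 : |(x i : ℝ)| = ((x i).natAbs : ℝ) := by
      rw [← Int.cast_abs, Int.abs_eq_natAbs, Int.cast_natCast]
    rw [h1, hb, ← Nat.le_floor_iff (by linarith)]
    exact_mod_cast Iff.rfl
  rw [heq]
  refine ⟨finite_sub N b P, ?_⟩
  refine (h b hb1).trans (mul_le_mul_of_nonneg_left ?_ hC.le)
  have hb1' : (1 : ℝ) ≤ b := by exact_mod_cast hb1
  have hN1 : (1 : ℝ) ≤ N := by exact_mod_cast hN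
  calc (b : ℝ) ^ ((N : ℝ) - c) ≤ (b : ℝ) ^ ((N : ℝ) - min c 1) :=
        Real.rpow_le_rpow_of_exponent_le hb1' (by linarith [min_le_left c 1])
    _ ≤ B ^ ((N : ℝ) - min c 1) :=
        Real.rpow_le_rpow (by positivity) hbB (by linarith [min_le_right c 1])

theorem fin (hlin : S_LIN) (n : ℕ) :
    (∀ (q : ℕ) (F : Fin q → MvPolynomial (Fin (n + 1)) ℤ) (k : Fin q → ℕ) (m : Fin q → ℕ∞)
      (S : Finset ℕ), (∀ i, (F i).IsHomogeneous (k i)) → (∀ i, Irreducible (toQ (F i))) →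
      (∃ i, Sm (F i) (k i) (m i)) → ∃ c C : ℝ, 0 < c ∧ ∀ B : ℝ, 1 ≤ B →
        {x | x ∈ Cam F m S ∧ ∀ i, |(x i : ℝ)| ≤ B}.Finite ∧
        ({x | x ∈ Cam F m S ∧ ∀ i, |(x i : ℝ)| ≤ B}.ncard : ℝ) ≤ C * B ^ ((n + 1 : ℕ) - c)) ∧
    ∃ Z : Set (Fin (n + 1) → ℤ),
      (∀ ε : ℝ, 0 < ε → ∃ B₀ : ℕ, ∀ B : ℕ, B₀ ≤ B →
        ({x | x ∈ Z ∧ ∀ i, |x i| ≤ B}.ncard : ℝ) ≤ ε * (B : ℝ) ^ (n + 1)) ∧
      ∀ (q : ℕ) (F : Fin q → MvPolynomial (Fin (n + 1)) ℤ) (k : Fin q → ℕ) (m : Fin q → ℕ∞)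
        (S : Finset ℕ), (∀ i, (F i).IsHomogeneous (k i)) → (∀ i, Irreducible (toQ (F i))) →
        (∃ i, Sm (F i) (k i) (m i)) → {x | x ∈ Cam F m S ∧ x ∉ Z}.Finite := by
  constructor
  · intro q F k m S hhom hirr ⟨i, e, he2, hem, hsm⟩
    have h1 := full_comp hlin (F i) (hhom i) (hirr i) e he2 hsm S
    have h2 : Sparse (n + 1) (fun _ x => x ∈ Cam F m S) :=
      h1.mono fun B x _ _ hx => cam_full F m S i e hem x hx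
    exact sparse_real (Nat.succ_pos n) _ h2
  · obtain ⟨Z, hZ, hfin⟩ := exists_diag' (N := n + 1)
      (ι := MvPolynomial (Fin (n + 1)) ℤ × ℕ × Finset ℕ)
      (fun j x => (∃ k : ℕ, j.1.IsHomogeneous k ∧ Irreducible (toQ j.1) ∧ 2 ≤ j.2.1 ∧
        ((2 ≤ n ∧ n * k < (2 * j.2.1 + 1) * (n + 1)) ∨
          ∃ r : ℕ, IsNormForm j.1 r ∧ k < (2 * j.2.1 + 1) * r)) ∧
        (∃ c : Fin (n + 1) → ℤ, ∑ i, c i * x i = 1) ∧ eval x j.1 ≠ 0 ∧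
          Full j.2.1 j.2.2 (eval x j.1)) (fun j => by
      by_cases hj : ∃ k : ℕ, j.1.IsHomogeneous k ∧ Irreducible (toQ j.1) ∧ 2 ≤ j.2.1 ∧
        ((2 ≤ n ∧ n * k < (2 * j.2.1 + 1) * (n + 1)) ∨
          ∃ r : ℕ, IsNormForm j.1 r ∧ k < (2 * j.2.1 + 1) * r)
      · obtain ⟨k, h1, h2, h3, h4⟩ := hj
        exact (full_comp hlin j.1 h1 h2 j.2.1 h3 h4 j.2.2).mono fun B x _ _ hx => hx.2
      · exact (Sparse.false (n + 1)).mono fun B x _ _ hx => hj hx.1)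
    refine ⟨Z, ?_, ?_⟩
    · intro ε hε
      obtain ⟨B₀, hB₀⟩ := hZ ε hε
      refine ⟨B₀, fun B hB => ?_⟩
      refine le_trans (le_of_eq ?_) (hB₀ B hB)
      congr 2
      ext x
      rw [Set.mem_setOf_eq, Set.mem_setOf_eq, mem_box, and_comm]
    · intro q F k m S hhom hirr ⟨i, e, he2, hem, hsm⟩
      refine (hfin (F i, e, S)).subset ?_
      rintro x ⟨hx, hxZ⟩
      exact ⟨⟨⟨k i, hhom i, hirr i, he2, hsm⟩, cam_full F m S i e hem x hx⟩, hxZ⟩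

end Pool.Agent.L0h46.CZ
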