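import Pool.Agent.L0h46.CZ.Stm

/-!
Project CZ (helper46), MP_464c42_nt: statements, second part.
-/

set_option autoImplicit false

namespace Pool.Agent.L0h46.CZ

open MvPolynomial Pool.Agent.TH910.Voj

/-- LIX: linear forms, values with a small factor. The proof of LIB with the set of the values
`s * A`, `1 ≤ s ≤ B ^ (1 / 8)`, `A` full, of at most `B ^ (1 / 8) * K (K' B) ^ (2 / 3)` elements. -/
def S_LIX : Prop := S_LIA → ∀ (n : ℕ) (F : MvPolynomial (Fin (n + 1)) ℤ), F.IsHomogeneous 1 →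
  F ≠ 0 → ∀ (m : ℕ) (S : Finset ℕ), 2 ≤ m →
    Sparse (n + 1) (fun B x => eval x F ≠ 0 ∧ ∃ (s : ℕ) (A : ℤ), (s : ℝ) ≤ (B : ℝ) ^ ((1 : ℝ) / 8) ∧
      eval x F = s * A ∧ Full m S A)

end Pool.Agent.L0h46.CZ
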