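import Pool.Agent.L0h46.CZ.AbsX
import Pool.Agent.L0h46.CZ.StmX

/-!
Project CZ (helper46), MP_464c42_nt: general forms, norm forms and linear forms, with exceptional
primes.
-/

set_option autoImplicit false

namespace Pool.Agent.L0h46.CZ

open MvPolynomial Pool.Agent.TH910.Voj Pool.Agent.H813R3.Voj Pool.Agent.N445.VW
  Pool.Agent.N445.DF NumberField

/-- the exceptional primes are few -/
def S_T {n : ℕ} (T : ℕ → (Fin (n + 1) → ℤ) → Prop) : Prop :=
  ∀ η : ℝ, 0 < η → Sparse (n + 1) (fun B x => ¬ ∃ g : ℕ, g ≠ 0 ∧ (g : ℝ) ≤ (B : ℝ) ^ η ∧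
    ∀ p : ℕ, p.Prime → T p x → p ∣ g)

/-- linear forms -/
def S_LIY : Prop := ∀ (n : ℕ) (F : MvPolynomial (Fin (n + 1)) ℤ), F.IsHomogeneous 1 →
  F ≠ 0 → ∀ (m : ℕ) (S : Finset ℕ), 2 ≤ m →
    Sparse (n + 1) (fun B x => eval x F ≠ 0 ∧ ∃ (s : ℕ) (A : ℤ), (s : ℝ) ≤ (B : ℝ) ^ ((1 : ℝ) / 8) ∧
      eval x F = s * A ∧ Full m S A)

/-- general forms -/
theorem full_genX {n : ℕ} (hn : 2 ≤ n) (F : MvPolynomial (Fin (n + 1)) ℤ) {k : ℕ}
    (hk : F.IsHomogeneous k) (hk2 : 2 ≤ k) (hirr : Irreducible (toQ F))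
    (T : ℕ → (Fin (n + 1) → ℤ) → Prop) (HT : S_T T)
    (m : ℕ) (hm : 2 ≤ m) (hkm : (k : ℝ) < (2 * m + 1) * (1 + 1 / (n : ℝ))) (S : Finset ℕ) :
    Sparse (n + 1) (fun _ x => (∃ c : Fin (n + 1) → ℤ, ∑ i, c i * x i = 1) ∧ eval x F ≠ 0 ∧
      FullX m S (fun p => T p x) (eval x F)) := by
  have hk1 : 1 ≤ k := by omega
  obtain ⟨a, i₀, hFa, ha⟩ := exists_direction F hk hirr
  have hn0 : (0 : ℝ) < n := by exact_mod_cast (by omega : 0 < n)
  have h1n : 0 < 1 / (n : ℝ) := by positivity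
  refine full_absX F hk hk2 hirr (1 + 1 / (n : ℝ)) (by linarith) a hFa (a i₀ * eval a F)
    (mul_ne_zero ha hFa) (fun δ => δ / 64) (fun δ hδ => by positivity)
    (fun x => ∃ c : Fin (n + 1) → ℤ, ∑ i, c i * x i = 1) ?_ ?_ T HT m hm hkm S
  · intro ε δ hε hε1 hδ hδ1
    have S3 := sparse_square F hk hk1 a i₀ hFa ha hε (show (0 : ℝ) < 1 / 8 by norm_num)
      (by norm_num)
    have S4 := sparse_planes hn F hk hk1 hirr δ hδ
    refine (S3.or S4).mono ?_
    rintro B x hB - ⟨hprim, M, hM1, hM2, hM3⟩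
    have hBr : (1 : ℝ) ≤ B := by exact_mod_cast hB
    have hBpos : (0 : ℝ) < B := by linarith
    by_cases hbig : ∃ p : ℕ, p.Prime ∧ p ∣ M ∧ (B : ℝ) ^ ((3 : ℝ) / 4) < p
    · obtain ⟨p, hp, hpM, hpB⟩ := hbig
      right
      refine ⟨hprim, p, hp, hpB, (hM3 p hp hpM).1, ?_⟩
      refine dvd_trans ?_ hM2
      exact pow_dvd_pow_of_dvd (Int.natCast_dvd_natCast.2 hpM) 2
    · left
      push Not at hbig
      obtain ⟨d, hd1, hd2, hd3⟩ := exists_divisor M _ ((B : ℝ) ^ ((3 : ℝ) / 4))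
        (Real.one_le_rpow hBr hε.le) hM1 (fun p hp hpM => hbig p hp hpM)
      refine ⟨d, hd2, ?_, ?_, fun p hp hpd => (hM3 p hp (hpd.trans hd1)).2⟩
      · refine hd3.trans ?_
        rw [← Real.rpow_add hBpos]
        exact Real.rpow_le_rpow_of_exponent_le hBr (by linarith)
      · exact dvd_trans (pow_dvd_pow_of_dvd (Int.natCast_dvd_natCast.2 hd1) 2) hM2
  · intro e he δ hδ hδ1
    refine (sparse_mul hn F hk hk2 hirr e he δ hδ).mono ?_
    rintro B x - - ⟨hprim, s, σ, w, h1, h2, h3, h4, h5, -⟩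
    exact ⟨hprim, h5, s, σ, w, h1, h2, h3, h4⟩

/-- norm forms -/
theorem full_normX {E : Type} [Field E] [NumberField E] {n : ℕ}
    (F : MvPolynomial (Fin (n + 1)) ℤ) {k : ℕ}
    (hk : F.IsHomogeneous k) (hk2 : 2 ≤ k) (hirr : Irreducible (toQ F))
    (α : Fin (n + 1) → 𝓞 E) (d c : ℤ) (hF : NF F α d c) (J : Finset (Fin (n + 1)))
    (hJ : ∀ i, (α i : E) ∈ Submodule.span ℚ ((fun j => (α j : E)) '' (J : Set (Fin (n + 1)))))
    (hind : ∀ u : Fin (n + 1) → ℤ, (∀ i, i ∉ J → u i = 0) → u ≠ 0 → Lf α u ≠ 0)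
    (hm2 : 2 ≤ J.card) (T : ℕ → (Fin (n + 1) → ℤ) → Prop) (HT : S_T T)
    (m : ℕ) (hm : 2 ≤ m) (hkm : (k : ℝ) < (2 * m + 1) * (J.card : ℝ)) (S : Finset ℕ) :
    Sparse (n + 1) (fun _ x => eval x F ≠ 0 ∧ FullX m S (fun p => T p x) (eval x F)) := by
  classical
  obtain ⟨j0, hj0⟩ : J.Nonempty := by
    rw [← Finset.card_pos]; omega
  set a : Fin (n + 1) → ℤ := Pi.single j0 1 with ha
  have haJ : ∀ i, i ∉ J → a i = 0 := by
    intro i hi
    rw [ha, Pi.single_eq_of_ne]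
    rintro rfl
    exact hi hj0
  have ha0 : a ≠ 0 := by
    intro h
    have := congrFun h j0
    rw [ha, Pi.single_eq_same, Pi.zero_apply] at this
    exact one_ne_zero this
  have hFa : eval a F ≠ 0 := eval_ne_of_Lf F α d c hF a (hind a haJ ha0)
  have hm1 : (2 : ℝ) ≤ J.card := by exact_mod_cast hm2
  refine (full_absX F hk hk2 hirr (J.card : ℝ) (by linarith) a hFa (d * c)
    (mul_ne_zero hF.hd hF.hc) (fun δ => δ / (32 * J.card)) (fun δ hδ => by positivity)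
    (fun _ => True) ?_ ?_ T HT m hm hkm S).mono fun B x _ _ h => ⟨trivial, h⟩
  · intro ε δ hε hε1 hδ hδ1
    set ε' := min ε (δ / 2) with hε'
    have hε'0 : 0 < ε' := lt_min hε (by positivity)
    refine (sparse_p F hk α d c hF J hind (by omega) a haJ ε' (δ / 2) hε'0 (by positivity)
      (by linarith)).mono ?_
    rintro B x hB - ⟨-, M, hM1, hM2, hM3⟩
    have hBr : (1 : ℝ) ≤ B := by exact_mod_cast hB
    have hBpos : (0 : ℝ) < B := by linarith
    have hM1' : (B : ℝ) ^ ε' < M :=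
      lt_of_le_of_lt (Real.rpow_le_rpow_of_exponent_le hBr (min_le_left _ _)) hM1
    obtain ⟨t, ht1, ht2, ht3⟩ := exists_divisor M _ ((B : ℝ) ^ ((J.card : ℝ) - δ))
      (Real.one_le_rpow hBr hε'0.le) hM1' (fun p hp hpM => (hM3 p hp hpM).1)
    refine ⟨t, ht2, ?_, ?_, fun p hp hpd => (hM3 p hp (hpd.trans ht1)).2⟩
    · refine ht3.trans ?_
      rw [← Real.rpow_add hBpos]
      refine Real.rpow_le_rpow_of_exponent_le hBr ?_
      have : ε' ≤ δ / 2 := min_le_right _ _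
      linarith
    · exact dvd_trans (pow_dvd_pow_of_dvd (Int.natCast_dvd_natCast.2 ht1) 2) hM2
  · intro e he δ hδ hδ1
    refine (sparse_s F hk hk2 hirr α d c hF J hJ hind hm2 a haJ e he δ hδ hδ1).mono ?_
    rintro B x - - ⟨-, s, σ, w, -, h2⟩
    exact ⟨s, σ, w, h2⟩

/-- linear forms -/
theorem full_linX (hlix : S_LIY) {n : ℕ} (F : MvPolynomial (Fin (n + 1)) ℤ)
    (hk : F.IsHomogeneous 1) (hirr : Irreducible (toQ F))
    (T : ℕ → (Fin (n + 1) → ℤ) → Prop) (HT : S_T T) (m : ℕ) (hm : 2 ≤ m) (S : Finset ℕ) :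
    Sparse (n + 1) (fun _ x => eval x F ≠ 0 ∧ FullX m S (fun p => T p x) (eval x F)) := by
  classical
  have hF0 : F ≠ 0 := by
    intro h0
    exact hirr.ne_zero (by rw [h0, map_zero])
  obtain ⟨η1, hη1, S1⟩ := sparse_sing F hk le_rfl hirr (ε := 1 / 8) (by norm_num) (by norm_num)
  have S4 := HT η1 hη1
  have S5 := hlix n F hk hF0 m S hm
  refine ((S4.or S1).or S5).mono ?_
  rintro B x hB hx ⟨hne, hfull⟩
  by_contra hcon
  rw [not_or, not_or, not_not] at hcon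
  obtain ⟨⟨⟨g, hg0, hgB, hgT⟩, n1⟩, n5⟩ := hcon
  set N := (eval x F).natAbs with hN
  have hN0 : N ≠ 0 := Int.natAbs_ne_zero.2 hne
  obtain ⟨s, A, hsA, hsp, hAp⟩ := exists_split N hN0 (fun p => p ∣ g)
  have hrd : rd s ≤ g := by
    have h1 : rd s ≤ g * rd 1 := rd_le_mul s g 1 hg0 one_ne_zero fun p hp hps =>
      Or.inl (hsp p hp hps)
    have h2 : rd 1 = 1 := by unfold rd; simp
    rwa [h2, mul_one] at h1
  have hs : (s : ℝ) ≤ (B : ℝ) ^ ((1 : ℝ) / 8) := by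
    by_contra h
    push Not at h
    refine n1 ⟨hne, s, Int.natCast_dvd.2 (Dvd.intro _ hsA), h, ?_⟩
    have h3 : (rd s : ℝ) ≤ g := by exact_mod_cast hrd
    exact h3.trans hgB
  have hAfull : Full m S (A : ℤ) := by
    intro p hp hpS hpA
    have hpA' : p ∣ A := Int.natCast_dvd_natCast.1 hpA
    have hpg : ¬ p ∣ g := hAp p hp hpA'
    have hpN : p ∣ N := hpA'.trans (Dvd.intro_left _ hsA)
    have h1 := hfull p hp hpS (fun h => hpg (hgT p hp h)) (Int.natCast_dvd.2 hpN)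
    have h2 : ((p ^ m : ℕ) : ℤ) ∣ eval x F := by push_cast; exact h1
    have h3 : p ^ m ∣ N := Int.natCast_dvd.1 h2
    have hcop : (p ^ m).Coprime s :=
      Nat.Coprime.pow_left m ((Nat.Prime.coprime_iff_not_dvd hp).2 fun h => hpg (hsp p hp h))
    have h4 : p ^ m ∣ A := by
      rw [← hsA] at h3
      exact hcop.dvd_of_dvd_mul_left h3
    exact_mod_cast Int.natCast_dvd_natCast.2 h4
  rcases Int.natAbs_eq (eval x F) with h | h
  · refine n5 ⟨hne, s, (A : ℤ), hs, ?_, hAfull⟩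
    rw [h, ← hN, ← hsA]; push_cast; ring
  · refine n5 ⟨hne, s, -(A : ℤ), hs, ?_, ?_⟩
    · rw [h, ← hN, ← hsA]; push_cast; ring
    · intro p hp hpS hpA
      exact (dvd_neg).2 (hAfull p hp hpS ((dvd_neg).1 hpA))

/-- a component -/
theorem full_compX (hlix : S_LIY) {n : ℕ} (F : MvPolynomial (Fin (n + 1)) ℤ) {k : ℕ}
    (hk : F.IsHomogeneous k) (hirr : Irreducible (toQ F))
    (T : ℕ → (Fin (n + 1) → ℤ) → Prop) (HT : S_T T) (m : ℕ) (hm : 2 ≤ m)
    (hkm : (2 ≤ n ∧ n * k < (2 * m + 1) * (n + 1)) ∨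
      ∃ r : ℕ, IsNormForm F r ∧ k < (2 * m + 1) * r) (S : Finset ℕ) :
    Sparse (n + 1) (fun _ x => (∃ c : Fin (n + 1) → ℤ, ∑ i, c i * x i = 1) ∧ eval x F ≠ 0 ∧
      FullX m S (fun p => T p x) (eval x F)) := by
  have hk1 := one_le_of_irr F hk hirr
  have hF0 : F ≠ 0 := by
    intro h0
    exact hirr.ne_zero (by rw [h0, map_zero])
  rcases Nat.eq_or_lt_of_le hk1 with h | h
  · subst h
    exact (full_linX hlix F hk hirr T HT m hm S).mono fun B x _ _ h => h.2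
  · rcases hkm with ⟨hn, hkm⟩ | ⟨r, hr, hkm⟩
    · refine full_genX hn F hk h hirr T HT m hm ?_ S
      have hn0 : (0 : ℝ) < n := by exact_mod_cast (by omega : 0 < n)
      have h1 : (n : ℝ) * k < (2 * m + 1) * (n + 1) := by exact_mod_cast hkm
      have h2 : (2 * (m : ℝ) + 1) * (1 + 1 / (n : ℝ)) = (2 * m + 1) * (n + 1) / n := by
        field_simp
      rw [h2, lt_div_iff₀ hn0]
      linarith
    · obtain ⟨E, hE1, hE2, α, d, c, J, hNF, hJm, hJ, hind⟩ := NF_of_isNormForm F hF0 r hr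
      have hm2 := two_le_rank F hk h hirr α d c hNF J hJ hind
      refine (full_normX F hk h hirr α d c hNF J hJ hind hm2 T HT m hm ?_ S).mono
        fun B x _ _ h => h.2
      rw [hJm]
      exact_mod_cast hkm

/-- the exceptional primes of a set of codimension two -/
theorem exc {n t : ℕ} (F' G' : Fin t → MvPolynomial (Fin (n + 1)) ℤ)
    (hF' : ∀ l, (∃ k, (F' l).IsHomogeneous k) ∧ Irreducible (toQ (F' l)) ∧
      ¬ toQ (F' l) ∣ toQ (G' l)) :
    S_T (fun p x => ∃ l, (p : ℤ) ∣ eval x (F' l) ∧ (p : ℤ) ∣ eval x (G' l)) := by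
  classical
  intro η hη
  have hS : ∀ l : Fin t, Sparse (n + 1) (fun B x => eval x (F' l) = 0 ∨ (eval x (F' l) ≠ 0 ∧
      (B : ℝ) ^ (η / (t + 1)) < (Int.gcd (eval x (F' l)) (eval x (G' l)) : ℝ))) := by
    intro l
    obtain ⟨⟨k, hk⟩, hirr, hG⟩ := hF' l
    have hF0 : F' l ≠ 0 := by
      intro h0
      exact hirr.ne_zero (by rw [h0, map_zero])
    exact (sparse_zeros (F' l) hF0).or
      (sparse_gcd_full (F' l) (G' l) hk hirr hG (ε := η / (t + 1)) (by positivity))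
  refine (Sparse.exists_fin hS).mono ?_
  rintro B x hB hx hcon
  by_contra h
  push Not at h
  refine hcon ⟨∏ l, Int.gcd (eval x (F' l)) (eval x (G' l)), ?_, ?_, ?_⟩
  · exact Finset.prod_ne_zero_iff.2 fun l _ h0 => (h l).1 (Int.gcd_eq_zero_iff.mp h0).1
  · have hBr : (1 : ℝ) ≤ B := by exact_mod_cast hB
    have hBpos : (0 : ℝ) < B := by linarith
    push_cast
    calc ∏ l : Fin t, (Int.gcd (eval x (F' l)) (eval x (G' l)) : ℝ) ≤
          ∏ _l : Fin t, (B : ℝ) ^ (η / (t + 1)) :=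
          Finset.prod_le_prod (fun _ _ => Nat.cast_nonneg _) fun l _ => (h l).2 (h l).1
      _ = (B : ℝ) ^ (t * (η / (t + 1))) := by
          rw [Finset.prod_const, Finset.card_univ, Fintype.card_fin, ← Real.rpow_natCast,
            ← Real.rpow_mul hBpos.le, mul_comm]
      _ ≤ _ := by
          refine Real.rpow_le_rpow_of_exponent_le hBr ?_
          rw [← mul_div_assoc, div_le_iff₀ (by positivity)]
          nlinarith
  · rintro p hp ⟨l, h1, h2⟩
    refine dvd_trans ?_ (Finset.dvd_prod_of_mem _ (Finset.mem_univ l))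
    exact Int.natCast_dvd_natCast.1 (Int.dvd_coe_gcd h1 h2)

end Pool.Agent.L0h46.CZ
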