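import Pool.Agent.L0h46.CZ.Fin
import Pool.Agent.L0h46.CZ.InstX

/-!
Project CZ (helper46), MP_464c42_nt: C-pairs on varieties birational to projective spaces.
-/

set_option autoImplicit false

namespace Pool.Agent.L0h46.CZ

open MvPolynomial Pool.Agent.TH910.Voj Pool.Agent.H813R3.Voj Pool.Agent.N445.VW
  Pool.Agent.N445.DF NumberField

/-- the exceptional primes -/
def Ex {n t : ℕ} (F' G' : Fin t → MvPolynomial (Fin (n + 1)) ℤ) (p : ℕ)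
    (x : Fin (n + 1) → ℤ) : Prop :=
  ∃ l, (p : ℤ) ∣ eval x (F' l) ∧ (p : ℤ) ∣ eval x (G' l)

/-- the Campana points -/
def CamX {n q t : ℕ} (F : Fin q → MvPolynomial (Fin (n + 1)) ℤ) (m : Fin q → ℕ∞) (S : Finset ℕ)
    (F' G' : Fin t → MvPolynomial (Fin (n + 1)) ℤ) : Set (Fin (n + 1) → ℤ) :=
  {x | (∃ c : Fin (n + 1) → ℤ, ∑ i, c i * x i = 1) ∧ ∀ i, eval x (F i) ≠ 0 ∧
    ∀ p : ℕ, p.Prime → p ∉ S → ¬ Ex F' G' p x → (p : ℤ) ∣ eval x (F i) →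
      m i ≤ emultiplicity (p : ℤ) (eval x (F i))}

/-- codimension two -/
def Cod {n t : ℕ} (F' G' : Fin t → MvPolynomial (Fin (n + 1)) ℤ) : Prop :=
  ∀ l, (∃ k, (F' l).IsHomogeneous k) ∧ Irreducible (toQ (F' l)) ∧ ¬ toQ (F' l) ∣ toQ (G' l)

theorem camX_full {n q t : ℕ} (F : Fin q → MvPolynomial (Fin (n + 1)) ℤ) (m : Fin q → ℕ∞)
    (S : Finset ℕ) (F' G' : Fin t → MvPolynomial (Fin (n + 1)) ℤ)
    (i : Fin q) (e : ℕ) (he : (e : ℕ∞) ≤ m i) (x : Fin (n + 1) → ℤ)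
    (hx : x ∈ CamX F m S F' G') : (∃ c : Fin (n + 1) → ℤ, ∑ i, c i * x i = 1) ∧
      eval x (F i) ≠ 0 ∧ FullX e S (fun p => Ex F' G' p x) (eval x (F i)) := by
  obtain ⟨h1, h2⟩ := hx
  refine ⟨h1, (h2 i).1, fun p hp hpS hpE hpd => ?_⟩
  exact pow_dvd_of_le_emultiplicity (he.trans ((h2 i).2 p hp hpS hpE hpd))

/-- the data of a component with its exceptional set -/
abbrev Dt (n : ℕ) : Type := MvPolynomial (Fin (n + 1)) ℤ × ℕ × Finset ℕ ×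
  ((t : ℕ) × ((Fin t → MvPolynomial (Fin (n + 1)) ℤ) × (Fin t → MvPolynomial (Fin (n + 1)) ℤ)))

/-- the data are admissible -/
def Ok {n : ℕ} (j : Dt n) : Prop :=
  (∃ k : ℕ, j.1.IsHomogeneous k ∧ Irreducible (toQ j.1) ∧ 2 ≤ j.2.1 ∧
    ((2 ≤ n ∧ n * k < (2 * j.2.1 + 1) * (n + 1)) ∨
      ∃ r : ℕ, IsNormForm j.1 r ∧ k < (2 * j.2.1 + 1) * r)) ∧ Cod j.2.2.2.2.1 j.2.2.2.2.2

theorem finX (hlix : S_LIY) (n : ℕ) :
    (∀ (q t : ℕ) (F : Fin q → MvPolynomial (Fin (n + 1)) ℤ) (k : Fin q → ℕ) (m : Fin q → ℕ∞)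
      (S : Finset ℕ) (F' G' : Fin t → MvPolynomial (Fin (n + 1)) ℤ),
      (∀ i, (F i).IsHomogeneous (k i)) → (∀ i, Irreducible (toQ (F i))) → Cod F' G' →
      (∃ i, Sm (F i) (k i) (m i)) → ∃ c C : ℝ, 0 < c ∧ ∀ B : ℝ, 1 ≤ B →
        {x | x ∈ CamX F m S F' G' ∧ ∀ i, |(x i : ℝ)| ≤ B}.Finite ∧
        ({x | x ∈ CamX F m S F' G' ∧ ∀ i, |(x i : ℝ)| ≤ B}.ncard : ℝ) ≤
          C * B ^ ((n + 1 : ℕ) - c)) ∧
    ∃ Z : Set (Fin (n + 1) → ℤ),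
      (∀ ε : ℝ, 0 < ε → ∃ B₀ : ℕ, ∀ B : ℕ, B₀ ≤ B →
        ({x | x ∈ Z ∧ ∀ i, |x i| ≤ B}.ncard : ℝ) ≤ ε * (B : ℝ) ^ (n + 1)) ∧
      ∀ (q t : ℕ) (F : Fin q → MvPolynomial (Fin (n + 1)) ℤ) (k : Fin q → ℕ) (m : Fin q → ℕ∞)
        (S : Finset ℕ) (F' G' : Fin t → MvPolynomial (Fin (n + 1)) ℤ),
        (∀ i, (F i).IsHomogeneous (k i)) → (∀ i, Irreducible (toQ (F i))) → Cod F' G' →
        (∃ i, Sm (F i) (k i) (m i)) → {x | x ∈ CamX F m S F' G' ∧ x ∉ Z}.Finite := by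
  constructor
  · intro q t F k m S F' G' hhom hirr hcod ⟨i, e, he2, hem, hsm⟩
    have h1 := full_compX hlix (F i) (hhom i) (hirr i) _ (exc F' G' hcod) e he2 hsm S
    have h2 : Sparse (n + 1) (fun _ x => x ∈ CamX F m S F' G') :=
      h1.mono fun B x _ _ hx => camX_full F m S F' G' i e hem x hx
    exact sparse_real (Nat.succ_pos n) _ h2
  · obtain ⟨Z, hZ, hfin⟩ := exists_diag' (N := n + 1) (ι := Dt n)
      (fun j x => Ok j ∧ (∃ c : Fin (n + 1) → ℤ, ∑ i, c i * x i = 1) ∧ eval x j.1 ≠ 0 ∧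
          FullX j.2.1 j.2.2.1 (fun p => Ex j.2.2.2.2.1 j.2.2.2.2.2 p x) (eval x j.1)) (fun j => by
      by_cases hj : Ok j
      · obtain ⟨⟨k, h1, h2, h3, h4⟩, h5⟩ := hj
        exact (full_compX hlix j.1 h1 h2 _ (exc _ _ h5) j.2.1 h3 h4 j.2.2.1).mono
          fun B x _ _ hx => hx.2
      · exact (Sparse.false (n + 1)).mono fun B x _ _ hx => hj hx.1)
    refine ⟨Z, ?_, ?_⟩
    · intro ε hε
      obtain ⟨B₀, hB₀⟩ := hZ ε hε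
      refine ⟨B₀, fun B hB => ?_⟩
      refine le_trans (le_of_eq ?_) (hB₀ B hB)
      congr 2
      ext x
      rw [Set.mem_setOf_eq, Set.mem_setOf_eq, mem_box, and_comm]
    · intro q t F k m S F' G' hhom hirr hcod ⟨i, e, he2, hem, hsm⟩
      refine (hfin (F i, e, S, ⟨t, F', G'⟩)).subset ?_
      rintro x ⟨hx, hxZ⟩
      exact ⟨⟨⟨⟨k i, hhom i, hirr i, he2, hsm⟩, hcod⟩, camX_full F m S F' G' i e hem x hx⟩, hxZ⟩

end Pool.Agent.L0h46.CZ
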