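import Pool.Agent.L0h46.CZ.Stm

/-!
Project CZ, module LIA: the number of integers which are `m`-full outside a finite set of primes.
-/

set_option autoImplicit false

namespace Pool.Agent.L0h46.CZ

lemma lia_sum (k : ℕ) : ∑ s ∈ Finset.Icc 1 k, 1 / Real.sqrt (s : ℝ) ≤ 2 * Real.sqrt (k : ℝ) := by
  induction k with
  | zero => simp
  | succ k ih =>
    rw [Finset.sum_Icc_succ_top (by omega)]
    set a := Real.sqrt (k : ℝ) with ha
    set b := Real.sqrt ((k + 1 : ℕ) : ℝ) with hb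
    have ha0 : 0 ≤ a := Real.sqrt_nonneg _
    have hb0 : 0 < b := Real.sqrt_pos.2 (by positivity)
    have ha2 : a * a = k := Real.mul_self_sqrt (by positivity)
    have hb2 : b * b = k + 1 := by
      have := Real.mul_self_sqrt (show (0 : ℝ) ≤ ((k + 1 : ℕ) : ℝ) by positivity)
      rw [← hb] at this
      rw [this]
      push_cast
      ring
    have h1 : 1 / b ≤ 2 * b - 2 * a := by
      rw [div_le_iff₀ hb0]
      nlinarith [sq_nonneg (b - a)]
    linarith

lemma lia_decomp (m : ℕ) (S : Finset ℕ) (hm : 2 ≤ m) (N : ℤ) (hN : N ≠ 0) (hF : Full m S N) :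
    ∃ M s : ℕ, M ^ 2 * s = N.natAbs ∧ 1 ≤ M ∧ 1 ≤ s ∧
      s ≤ M * ∏ p ∈ S.filter Nat.Prime, p := by
  obtain ⟨s, M, hMs, hs⟩ := Nat.sq_mul_squarefree N.natAbs
  have hn0 : N.natAbs ≠ 0 := Int.natAbs_ne_zero.2 hN
  have hM0 : M ≠ 0 := by
    rintro rfl
    apply hn0
    rw [← hMs]
    simp
  have hs0 : s ≠ 0 := by
    rintro rfl
    apply hn0
    rw [← hMs]
    simp
  have hP0 : 0 < ∏ p ∈ S.filter Nat.Prime, p :=
    Finset.prod_pos (fun p hp => (Finset.mem_filter.1 hp).2.pos)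
  refine ⟨M, s, hMs, Nat.pos_of_ne_zero hM0, Nat.pos_of_ne_zero hs0, ?_⟩
  apply Nat.le_of_dvd (Nat.mul_pos (Nat.pos_of_ne_zero hM0) hP0)
  rw [← Nat.prod_primeFactors_of_squarefree hs]
  apply Finset.prod_primes_dvd
  · intro p hp
    exact (Nat.prime_of_mem_primeFactors hp).prime
  · intro p hp
    have hpp : p.Prime := Nat.prime_of_mem_primeFactors hp
    have hps : p ∣ s := Nat.dvd_of_mem_primeFactors hp
    by_cases hS : p ∈ S
    · exact Dvd.dvd.mul_left (Finset.dvd_prod_of_mem (fun p => p)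
        (Finset.mem_filter.2 ⟨hS, hpp⟩)) M
    · apply Dvd.dvd.mul_right
      have h1 : (p : ℤ) ∣ N := by
        apply Int.natCast_dvd.2
        rw [← hMs]
        exact Dvd.dvd.mul_left hps _
      have h2 : (p : ℤ) ^ m ∣ N := hF p hpp hS h1
      have h3 : p ^ 2 ∣ N.natAbs := by
        have h4 : ((p ^ m : ℕ) : ℤ) ∣ N := by
          push_cast
          exact h2
        exact (pow_dvd_pow p hm).trans (Int.natCast_dvd.1 h4)
      obtain ⟨t, ht⟩ := hps
      have hpt : ¬ p ∣ t := by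
        intro hpt
        have : p * p ∣ s := by
          rw [ht]
          exact Nat.mul_dvd_mul_left p hpt
        exact hpp.one_lt.ne' (Nat.isUnit_iff.1 (hs p this))
      have h5 : p * p ∣ p * (M ^ 2 * t) := by
        have : p * (M ^ 2 * t) = N.natAbs := by
          rw [← hMs, ht]
          ring
        rw [this, ← sq]
        exact h3
      have h6 : p ∣ M ^ 2 * t := Nat.dvd_of_mul_dvd_mul_left hpp.pos h5
      rcases (Nat.Prime.dvd_mul hpp).1 h6 with h | h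
      · exact hpp.dvd_of_dvd_pow h
      · exact absurd h hpt

theorem lia : S_LIA := by
  classical
  intro m S hm
  set P : ℕ := ∏ p ∈ S.filter Nat.Prime, p with hP
  have hP0 : 0 < P := Finset.prod_pos (fun p hp => (Finset.mem_filter.1 hp).2.pos)
  have hP1 : (1 : ℝ) ≤ P := by exact_mod_cast hP0
  refine ⟨4 * (P : ℝ), by positivity, ?_⟩
  intro X hX E hE
  have hX1 : (1 : ℝ) ≤ X := by exact_mod_cast hX
  have hX0 : (0 : ℝ) < X := by linarith
  have hdec : ∀ N : ℤ, ∃ q : ℕ × ℕ, N ∈ E → q.1 ^ 2 * q.2 = N.natAbs ∧ 1 ≤ q.1 ∧ 1 ≤ q.2 ∧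
      q.2 ≤ q.1 * P := by
    intro N
    by_cases hN : N ∈ E
    · obtain ⟨M, s, h⟩ := lia_decomp m S hm N (hE N hN).1 (hE N hN).2.2
      exact ⟨(M, s), fun _ => h⟩
    · exact ⟨(0, 0), fun h => absurd h hN⟩
  choose q hq using hdec
  set Y : ℕ := ⌊((X : ℝ) * (P : ℝ) ^ 2) ^ ((1 : ℝ) / 3)⌋₊ with hY
  have hYle : (Y : ℝ) ≤ ((X : ℝ) * (P : ℝ) ^ 2) ^ ((1 : ℝ) / 3) :=
    Nat.floor_le (by positivity)
  set T : Finset (Σ _ : ℕ, ℕ) :=
    (Finset.Icc 1 Y).sigma (fun s => Finset.Icc 1 (Nat.sqrt (X / s))) with hT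
  set U : Finset (Bool × (Σ _ : ℕ, ℕ)) := (Finset.univ : Finset Bool) ×ˢ T with hU
  have hcard : E.card ≤ U.card := by
    apply Finset.card_le_card_of_injOn
      (fun N : ℤ => ((decide (0 ≤ N) : Bool), (⟨(q N).2, (q N).1⟩ : Σ _ : ℕ, ℕ)))
    · intro N hN
      have hN' : N ∈ E := hN
      obtain ⟨h1, h2, h3, h4⟩ := hq N hN'
      have h5 : N.natAbs ≤ X := by
        have := (hE N hN').2.1
        rw [Int.abs_eq_natAbs] at this
        exact_mod_cast this
      have h6 : (q N).1 ^ 2 * (q N).2 ≤ X := h1.le.trans h5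
      rw [Finset.mem_coe, hU, Finset.mem_product]
      refine ⟨Finset.mem_univ _, ?_⟩
      rw [hT, Finset.mem_sigma]
      refine ⟨Finset.mem_Icc.2 ⟨h3, ?_⟩, Finset.mem_Icc.2 ⟨h2, ?_⟩⟩
      · apply Nat.le_floor
        have h7 : (q N).2 ^ 3 ≤ X * P ^ 2 := by
          calc (q N).2 ^ 3 = (q N).2 ^ 2 * (q N).2 := by ring
            _ ≤ ((q N).1 * P) ^ 2 * (q N).2 := by gcongr
            _ = ((q N).1 ^ 2 * (q N).2) * P ^ 2 := by ring
            _ ≤ X * P ^ 2 := by gcongr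
        have h8 : ((q N).2 : ℝ) ^ 3 ≤ (X : ℝ) * (P : ℝ) ^ 2 := by exact_mod_cast h7
        calc ((q N).2 : ℝ) = (((q N).2 : ℝ) ^ 3) ^ ((1 : ℝ) / 3) := by
              rw [← Real.rpow_natCast, ← Real.rpow_mul (by positivity)]
              norm_num
          _ ≤ ((X : ℝ) * (P : ℝ) ^ 2) ^ ((1 : ℝ) / 3) :=
              Real.rpow_le_rpow (by positivity) h8 (by norm_num)
      · rw [Nat.le_sqrt']
        show (q N).1 ^ 2 ≤ X / (q N).2
        exact (Nat.le_div_iff_mul_le h3).2 h6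
    · intro N hN N' hN' heq
      have hN1 : N ∈ E := hN
      have hN2 : N' ∈ E := hN'
      simp only [Prod.mk.injEq, Sigma.mk.injEq] at heq
      obtain ⟨e1, e2, e3⟩ := heq
      have e3' : (q N).1 = (q N').1 := by
        simpa using e3
      have hab : N.natAbs = N'.natAbs := by
        rw [← (hq N hN1).1, ← (hq N' hN2).1, e2, e3']
      have e1' : (0 ≤ N) ↔ (0 ≤ N') := by
        simpa using e1
      rcases Int.natAbs_eq_natAbs_iff.1 hab with h | h
      · exact h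
      · by_cases hN0 : 0 ≤ N
        · have := e1'.1 hN0
          omega
        · have : ¬ 0 ≤ N' := fun h' => hN0 (e1'.2 h')
          omega
  have hUc : (U.card : ℝ) ≤ 2 * (Real.sqrt X * (2 * Real.sqrt Y)) := by
    rw [hU, Finset.card_product, hT, Finset.card_sigma]
    simp only [Finset.card_univ, Fintype.card_bool, Nat.card_Icc, Nat.add_sub_cancel]
    push_cast
    apply mul_le_mul_of_nonneg_left _ (by norm_num)
    calc ∑ s ∈ Finset.Icc 1 Y, ((Nat.sqrt (X / s) : ℕ) : ℝ)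
        ≤ ∑ s ∈ Finset.Icc 1 Y, Real.sqrt X * (1 / Real.sqrt (s : ℝ)) := by
          apply Finset.sum_le_sum
          intro s hs
          have h1 : ((Nat.sqrt (X / s) : ℕ) : ℝ) ≤ Real.sqrt ((X / s : ℕ) : ℝ) :=
            Real.nat_sqrt_le_real_sqrt
          have h2 : Real.sqrt ((X / s : ℕ) : ℝ) ≤ Real.sqrt ((X : ℝ) / s) :=
            Real.sqrt_le_sqrt Nat.cast_div_le
          have h3 : Real.sqrt ((X : ℝ) / s) = Real.sqrt X * (1 / Real.sqrt (s : ℝ)) := by
            rw [Real.sqrt_div (by positivity)]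
            ring
          rw [← h3]
          exact h1.trans h2
      _ = Real.sqrt X * ∑ s ∈ Finset.Icc 1 Y, (1 / Real.sqrt (s : ℝ)) := by
          rw [Finset.mul_sum]
      _ ≤ Real.sqrt X * (2 * Real.sqrt Y) := by
          apply mul_le_mul_of_nonneg_left (lia_sum Y) (Real.sqrt_nonneg _)
  have hsY : Real.sqrt Y ≤ (X : ℝ) ^ ((1 : ℝ) / 6) * P := by
    calc Real.sqrt Y ≤ Real.sqrt (((X : ℝ) * (P : ℝ) ^ 2) ^ ((1 : ℝ) / 3)) :=
          Real.sqrt_le_sqrt hYle
      _ = ((X : ℝ) * (P : ℝ) ^ 2) ^ ((1 : ℝ) / 6) := by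
          rw [Real.sqrt_eq_rpow, ← Real.rpow_mul (by positivity)]
          norm_num
      _ = (X : ℝ) ^ ((1 : ℝ) / 6) * ((P : ℝ) ^ 2) ^ ((1 : ℝ) / 6) := by
          rw [Real.mul_rpow (by positivity) (by positivity)]
      _ ≤ (X : ℝ) ^ ((1 : ℝ) / 6) * P := by
          apply mul_le_mul_of_nonneg_left _ (by positivity)
          rw [← Real.rpow_natCast, ← Real.rpow_mul (by positivity)]
          calc (P : ℝ) ^ (((2 : ℕ) : ℝ) * (1 / 6)) ≤ (P : ℝ) ^ (1 : ℝ) :=
                Real.rpow_le_rpow_of_exponent_le hP1 (by norm_num)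
            _ = P := Real.rpow_one _
  calc (E.card : ℝ) ≤ (U.card : ℝ) := by exact_mod_cast hcard
    _ ≤ 2 * (Real.sqrt X * (2 * Real.sqrt Y)) := hUc
    _ ≤ 2 * (Real.sqrt X * (2 * ((X : ℝ) ^ ((1 : ℝ) / 6) * P))) := by
        gcongr
    _ = 4 * (P : ℝ) * ((X : ℝ) ^ ((1 : ℝ) / 2) * (X : ℝ) ^ ((1 : ℝ) / 6)) := by
        rw [Real.sqrt_eq_rpow]
        ring
    _ = 4 * (P : ℝ) * (X : ℝ) ^ ((2 : ℝ) / 3) := by
        rw [← Real.rpow_add hX0]
        norm_num

end Pool.Agent.L0h46.CZ
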