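import Pool.Agent.L0h46.CZ.StmX
import Pool.Agent.L0h66.CZ.LIB

/-!
Project CZ, module LIX: linear forms, values with a small factor (after helper66, LIB)
-/

set_option autoImplicit false

namespace Pool.Agent.L0h46.CZ

open MvPolynomial Pool.Agent.TH910.Voj

theorem lix : S_LIX := by
  classical
  intro hLIA n F hF hF0 m S hm
  obtain ⟨K, hK, hL⟩ := hLIA m S hm
  obtain ⟨j, hj⟩ : ∃ j, coeff (Finsupp.single j 1) F ≠ 0 := by
    obtain ⟨d, hd⟩ := Finset.nonempty_iff_ne_empty.mpr (fun h => hF0 (support_eq_empty.mp h))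
    obtain ⟨j, rfl⟩ := Pool.Agent.L0h66.CZ.supp_single hF hd
    exact ⟨j, mem_support_iff.mp hd⟩
  set a : Fin (n + 1) → ℤ := fun i => coeff (Finsupp.single i 1) F with ha
  have hev : ∀ x, eval x F = ∑ i, a i * x i := fun x => Pool.Agent.L0h66.CZ.eval_lin hF x
  obtain ⟨K', hK'⟩ : ∃ K' : ℕ, K' = ∑ i, (a i).natAbs := ⟨_, rfl⟩
  have hK'1 : 1 ≤ K' := by
    rw [hK']
    exact (Nat.one_le_iff_ne_zero.mpr (Int.natAbs_ne_zero.mpr hj)).trans
      (Finset.single_le_sum (f := fun i => (a i).natAbs) (fun i _ => Nat.zero_le _)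
        (Finset.mem_univ j))
  refine ⟨5 / 24, by norm_num, K * (K' : ℝ) ^ ((2 : ℝ) / 3) * 3 ^ n, ?_, fun B hB => ?_⟩
  · have : (0 : ℝ) < K' := by exact_mod_cast hK'1
    positivity
  have hB1 : (1 : ℝ) ≤ B := by exact_mod_cast hB
  have hB0 : (0 : ℝ) < B := by linarith
  set E : Finset ℤ := (Finset.Icc (-((K' * B : ℕ) : ℤ)) ((K' * B : ℕ) : ℤ)).filter
    (fun N => N ≠ 0 ∧ Full m S N) with hE
  have hEc := hL (K' * B) (Nat.one_le_iff_ne_zero.mpr (by positivity)) E (by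
    intro N hN
    rw [hE, Finset.mem_filter, Finset.mem_Icc] at hN
    exact ⟨hN.2.1, abs_le.mpr hN.1, hN.2.2⟩)
  set W : Finset ℤ := ((Finset.Icc 1 ⌊(B : ℝ) ^ ((1 : ℝ) / 8)⌋₊) ×ˢ E).image
    (fun z : ℕ × ℤ => (z.1 : ℤ) * z.2) with hW
  have hWc : (W.card : ℝ) ≤ (B : ℝ) ^ ((1 : ℝ) / 8) * (K * ((K' * B : ℕ) : ℝ) ^ ((2 : ℝ) / 3)) := by
    have h1 : W.card ≤ ⌊(B : ℝ) ^ ((1 : ℝ) / 8)⌋₊ * E.card := by
      refine Finset.card_image_le.trans ?_
      rw [Finset.card_product, Nat.card_Icc, Nat.add_sub_cancel]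
    have h2 : (W.card : ℝ) ≤ (⌊(B : ℝ) ^ ((1 : ℝ) / 8)⌋₊ : ℝ) * E.card := by exact_mod_cast h1
    exact h2.trans (mul_le_mul (Nat.floor_le (by positivity)) hEc (Nat.cast_nonneg _)
      (by positivity))
  have hle : Set.ncard {x | x ∈ box (n + 1) B ∧ (eval x F ≠ 0 ∧ ∃ (s : ℕ) (A : ℤ),
      (s : ℝ) ≤ (B : ℝ) ^ ((1 : ℝ) / 8) ∧ eval x F = s * A ∧ Full m S A)} ≤
      (W ×ˢ box n B).card := by
    rw [← Set.ncard_coe_finset]
    apply Set.ncard_le_ncard_of_injOn (fun x : Fin (n + 1) → ℤ =>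
      ((eval x F, fun i : Fin n => x (j.succAbove i)) : ℤ × (Fin n → ℤ)))
    · rintro x ⟨hx, hx0, s, A, hs, hsA, hA⟩
      rw [mem_box] at hx
      rw [Finset.mem_coe, Finset.mem_product]
      have hxle : |eval x F| ≤ ((K' * B : ℕ) : ℤ) := by
        rw [hev, hK']
        push_cast
        rw [Finset.sum_mul]
        refine (Finset.abs_sum_le_sum_abs _ _).trans (Finset.sum_le_sum fun i _ => ?_)
        rw [abs_mul]
        exact mul_le_mul_of_nonneg_left (hx i) (abs_nonneg _)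
      have hs0 : s ≠ 0 := by
        rintro rfl
        rw [hsA] at hx0
        simp at hx0
      have hA0 : A ≠ 0 := by
        rintro rfl
        rw [hsA] at hx0
        simp at hx0
      have hs1 : (1 : ℤ) ≤ s := by
        have : 1 ≤ s := Nat.one_le_iff_ne_zero.2 hs0
        exact_mod_cast this
      refine ⟨?_, ?_⟩
      · rw [hW, Finset.mem_image]
        refine ⟨(s, A), ?_, hsA.symm⟩
        rw [Finset.mem_product, Finset.mem_Icc, hE, Finset.mem_filter, Finset.mem_Icc]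
        refine ⟨⟨Nat.one_le_iff_ne_zero.2 hs0, Nat.le_floor hs⟩, abs_le.mp ?_, hA0, hA⟩
        refine le_trans ?_ hxle
        rw [hsA, abs_mul, abs_of_pos (by linarith : (0 : ℤ) < s)]
        nlinarith [abs_nonneg A]
      · rw [mem_box]
        exact fun i => hx _
    · rintro x - y - hxy
      simp only [Prod.mk.injEq] at hxy
      obtain ⟨h1, h2⟩ := hxy
      have h3 : ∀ i, x (j.succAbove i) = y (j.succAbove i) := fun i => congrFun h2 i
      rw [hev, hev, Fin.sum_univ_succAbove _ j, Fin.sum_univ_succAbove _ j] at h1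
      simp only [h3] at h1
      have h4 : a j * x j = a j * y j := by linarith
      have h5 : x j = y j := mul_left_cancel₀ hj h4
      funext i
      rcases Fin.eq_self_or_eq_succAbove j i with rfl | ⟨k, rfl⟩
      · exact h5
      · exact h3 k
  have h1 : ((W ×ˢ box n B).card : ℝ) ≤
      ((B : ℝ) ^ ((1 : ℝ) / 8) * (K * ((K' * B : ℕ) : ℝ) ^ ((2 : ℝ) / 3))) *
        (3 ^ n * (B : ℝ) ^ (n : ℝ)) := by
    rw [Finset.card_product, Nat.cast_mul]
    exact mul_le_mul hWc (card_box_le n B hB) (by positivity) (by positivity)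
  refine (Nat.cast_le.mpr hle).trans (h1.trans (le_of_eq ?_))
  rw [Nat.cast_mul, Real.mul_rpow (by positivity) (by positivity)]
  have h2 : (B : ℝ) ^ (((n + 1 : ℕ) : ℝ) - 5 / 24) =
      (B : ℝ) ^ ((1 : ℝ) / 8) * (B : ℝ) ^ ((2 : ℝ) / 3) * (B : ℝ) ^ (n : ℝ) := by
    rw [← Real.rpow_add hB0, ← Real.rpow_add hB0]
    congr 1
    push_cast
    ring
  rw [h2]
  ring

end Pool.Agent.L0h46.CZ
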